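import Mathlib
import Pool.Agent.Helper961.Aub.ZFinal

/-!
Disproof of MP_3afe9c_an on a flat torus `(ℝ/Lℤ)^ι`.
-/

set_option autoImplicit false
set_option linter.unusedSectionVars false

open Set Filter Topology MeasureTheory

namespace Pool.Agent.Results.MP_3afe9c_an.ChainRecNotAubry

noncomputable section

variable {ι : Type} [Fintype ι]

/-- the projection of `ℝ^ι` onto the torus `(ℝ/Lℤ)^ι` -/
def proj (L : ℝ) (u : EuclideanSpace ℝ ι) : ι → AddCircle L :=
  fun i => ((u i : ℝ) : AddCircle L)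

/-- a vector field `f` on the torus is smooth -/
def SmoothField (L : ℝ) (f : (ι → AddCircle L) → EuclideanSpace ℝ ι) : Prop :=
  ContDiff ℝ ((⊤ : ℕ∞) : WithTop ℕ∞) (fun u => f (proj L u))

/-- `φ` is the flow of `f`: `t ↦ φ t x` is continuous and
`φ t x = x + ∫_0^t f(φ s x) ds` -/
def IsFlow (L : ℝ) (f : (ι → AddCircle L) → EuclideanSpace ℝ ι)
    (φ : ℝ → (ι → AddCircle L) → (ι → AddCircle L)) : Prop :=
  ∀ x, Continuous (fun t => φ t x) ∧
    ∀ t, φ t x = x + proj L (∫ s in (0 : ℝ)..t, f (φ s x))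

/-- `γ` is an absolutely continuous curve on `[0, T]` in the torus with velocity `v`:
`v` is integrable and `γ(s) = γ(0) + ∫_0^s v` -/
def IsCurve (L : ℝ) (γ : ℝ → (ι → AddCircle L)) (v : ℝ → EuclideanSpace ℝ ι) (T : ℝ) : Prop :=
  IntegrableOn v (Icc 0 T) ∧
    ∀ s ∈ Icc (0 : ℝ) T, γ s = γ 0 + proj L (∫ u in (0 : ℝ)..s, v u)

/-- the action `∫_0^T ½ ‖γ' - f(γ)‖²` -/
def action (L : ℝ) (f : (ι → AddCircle L) → EuclideanSpace ℝ ι) (γ : ℝ → (ι → AddCircle L))
    (v : ℝ → EuclideanSpace ℝ ι) (T : ℝ) : ENNReal :=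
  ∫⁻ s in Icc (0 : ℝ) T, ENNReal.ofReal (‖v s - f (γ s)‖ ^ 2 / 2)

/-- `h_T(x, y)`, the infimum of the action of the curves from `x` to `y` in time `T` -/
def hT (L : ℝ) (f : (ι → AddCircle L) → EuclideanSpace ℝ ι) (T : ℝ)
    (x y : ι → AddCircle L) : ENNReal :=
  ⨅ (γ : ℝ → (ι → AddCircle L)) (v : ℝ → EuclideanSpace ℝ ι) (_ : IsCurve L γ v T)
    (_ : γ 0 = x) (_ : γ T = y), action L f γ v T

/-- the Peierls barrier `h(x, y) = liminf_{T → ∞} h_T(x, y)` -/
def barrier (L : ℝ) (f : (ι → AddCircle L) → EuclideanSpace ℝ ι)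
    (x y : ι → AddCircle L) : ENNReal :=
  liminf (fun T : ℝ => hT L f T x y) atTop

/-- the Aubry set `A_0 = {x : h(x, x) = 0}` -/
def AubrySet (L : ℝ) (f : (ι → AddCircle L) → EuclideanSpace ℝ ι) :
    Set (ι → AddCircle L) := {x | barrier L f x x = 0}

/-- the flat Riemannian distance of `x` and `y` is smaller than `ε` -/
def near (L ε : ℝ) (x y : ι → AddCircle L) : Prop :=
  ∃ u : EuclideanSpace ℝ ι, ‖u‖ < ε ∧ y = x + proj L u

/-- one step of an `(ε, T)`-chain: `d(φ^t(a), b) < ε` for some `t ≥ T` -/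
def chstep (L : ℝ) (φ : ℝ → (ι → AddCircle L) → (ι → AddCircle L)) (ε T : ℝ)
    (a b : ι → AddCircle L) : Prop := ∃ t, T ≤ t ∧ near L ε (φ t a) b

/-- `x` is chain recurrent: for all `ε, T > 0` there is an `(ε, T)`-chain
`x = x_0, x_1, ..., x_k = x`, `k ≥ 1` -/
def ChainRec (L : ℝ) (φ : ℝ → (ι → AddCircle L) → (ι → AddCircle L))
    (x : ι → AddCircle L) : Prop :=
  ∀ ε > 0, ∀ T > 0, Relation.TransGen (chstep L φ ε T) x x

theorem proj_add (L : ℝ) (u v : EuclideanSpace ℝ ι) :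
    proj L (u + v) = proj L u + proj L v := by
  funext i
  simp [proj]

theorem proj_surj (L : ℝ) : Function.Surjective (proj L : EuclideanSpace ℝ ι → _) := by
  intro q
  choose u hu using fun i => QuotientAddGroup.mk_surjective (q i)
  refine ⟨WithLp.toLp 2 u, ?_⟩
  funext i
  simpa [proj] using hu i

theorem proj_lat (L : ℝ) (k : ι → ℤ) : proj L (Pool.Agent.Aub.lat L k) = 0 := by
  funext i
  simp only [proj, Pool.Agent.Aub.lat, Pi.zero_apply]
  rw [AddCircle.coe_eq_zero_iff]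
  exact ⟨k i, by simp [mul_comm]⟩

theorem proj_eq {L : ℝ} {u v : EuclideanSpace ℝ ι} (h : proj L u = proj L v) :
    ∃ k : ι → ℤ, u = v + Pool.Agent.Aub.lat L k := by
  have h1 : ∀ i, ∃ n : ℤ, n • L = u i - v i := by
    intro i
    have h2 := congrFun h i
    simp only [proj] at h2
    rw [← sub_eq_zero, ← AddCircle.coe_sub, AddCircle.coe_eq_zero_iff] at h2
    exact h2
  choose k hk using h1
  refine ⟨k, ?_⟩
  ext i
  have := hk i
  simp only [Pool.Agent.Aub.lat, PiLp.add_apply, zsmul_eq_mul] at this ⊢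
  rw [mul_comm, this]
  ring

theorem proj_cont (L : ℝ) : Continuous (proj L : EuclideanSpace ℝ ι → _) := by
  refine continuous_pi fun i => ?_
  exact (AddCircle.continuous_mk' L).comp (by fun_prop)

/-- On some flat torus there is a smooth vector field with a chain recurrent point which is not
in the Aubry set of `½ ‖v - f(x)‖²`. -/
theorem result : ∃ (ι : Type) (_ : Fintype ι) (L : ℝ)
    (f : (ι → AddCircle L) → EuclideanSpace ℝ ι)
    (φ : ℝ → (ι → AddCircle L) → (ι → AddCircle L)),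
    0 < L ∧ SmoothField L f ∧ IsFlow L f φ ∧ ∃ x, ChainRec L φ x ∧ x ∉ AubrySet L f := by
  obtain ⟨F, Φ, hs, hp, hf, x, hx, hA⟩ := Pool.Agent.Aub.final
  have hL : (0 : ℝ) < Pool.Agent.Aub.LL := by unfold Pool.Agent.Aub.LL; positivity
  obtain ⟨K, B, _, _, hK, _, hg, heq, hlip⟩ := Pool.Agent.Aub.flow_facts hL hs hp hf
  set L := Pool.Agent.Aub.LL with hLdef
  obtain ⟨lift, hlift⟩ : ∃ lift : (Pool.Agent.Aub.Jx → AddCircle L) → EuclideanSpace ℝ Pool.Agent.Aub.Jx,
      ∀ q, proj L (lift q) = q :=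
    ⟨Function.surjInv (proj_surj L), Function.surjInv_eq (proj_surj L)⟩
  set f : (Pool.Agent.Aub.Jx → AddCircle L) → EuclideanSpace ℝ Pool.Agent.Aub.Jx := fun q => F (lift q) with hfdef
  set φ : ℝ → (Pool.Agent.Aub.Jx → AddCircle L) → (Pool.Agent.Aub.Jx → AddCircle L) :=
    fun t q => proj L (Φ t (lift q)) with hφdef
  have hfp : ∀ u, f (proj L u) = F u := by
    intro u
    obtain ⟨k, hk⟩ := proj_eq (hlift (proj L u))
    simp only [hfdef]
    rw [hk, hp]
  have hφp : ∀ t u, φ t (proj L u) = proj L (Φ t u) := by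
    intro t u
    obtain ⟨k, hk⟩ := proj_eq (hlift (proj L u))
    simp only [hφdef]
    rw [hk, heq, proj_add, proj_lat, add_zero]
  have hFc : Continuous F := hs.continuous
  refine ⟨Pool.Agent.Aub.Jx, inferInstance, L, f, φ, hL, ?_, ?_, proj L x, ?_, ?_⟩
  · unfold SmoothField
    simpa only [hfp] using hs
  · intro q
    obtain ⟨u, rfl⟩ := proj_surj L q
    have hc : Continuous fun t => Φ t u :=
      continuous_iff_continuousAt.2 fun t => (hf.2 u t).continuousAt
    refine ⟨?_, ?_⟩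
    · simp only [hφp]
      exact (proj_cont L).comp hc
    · intro t
      simp only [hφp, hfp]
      have h1 : ∫ s in (0 : ℝ)..t, F (Φ s u) = Φ t u - Φ 0 u :=
        intervalIntegral.integral_eq_sub_of_hasDerivAt (fun s _ => hf.2 u s)
          ((hFc.comp hc).intervalIntegrable _ _)
      rw [h1, ← proj_add, hf.1 u]
      congr 1
      abel
  · intro ε hε T hT0
    have h1 := hx ε hε T hT0
    have h2 : ∀ a b, Pool.Agent.Aub.chstep L Φ ε T a b → chstep L φ ε T (proj L a) (proj L b) := by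
      rintro a b ⟨t, ht, k, hk⟩
      refine ⟨t, ht, -(Φ t a - b - Pool.Agent.Aub.lat L k), by rwa [norm_neg], ?_⟩
      rw [hφp, ← proj_add]
      have : Φ t a + -(Φ t a - b - Pool.Agent.Aub.lat L k) = b + Pool.Agent.Aub.lat L k := by abel
      rw [this, proj_add, proj_lat, add_zero]
    exact h1.lift (proj L) h2
  · intro hmem
    apply hA
    change Pool.Agent.Aub.barrier L F x x = 0
    have h0 : barrier L f (proj L x) (proj L x) = 0 := hmem
    refine le_antisymm ?_ bot_le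
    rw [← h0]
    unfold barrier Pool.Agent.Aub.barrier
    refine liminf_le_liminf ?_
    filter_upwards [eventually_ge_atTop (0 : ℝ)] with T hT0
    unfold hT Pool.Agent.Aub.hT
    refine le_iInf fun γ => le_iInf fun v => le_iInf fun hc => le_iInf fun h0 =>
      le_iInf fun h1 => ?_
    set γ' : ℝ → EuclideanSpace ℝ Pool.Agent.Aub.Jx := fun s => x + ∫ u in (0 : ℝ)..s, v u with hγ'
    have hγ0 : γ' 0 = x := by simp [hγ']
    have hγs : ∀ s ∈ Icc (0 : ℝ) T, proj L (γ' s) = γ s := by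
      intro s hs'
      rw [hc.2 s hs', h0, hγ', proj_add]
    have hcur : Pool.Agent.Aub.IsCurve γ' v T := by
      refine ⟨hc.1, fun s _ => ?_⟩
      rw [hγ0]
    have hend : ∃ k : Pool.Agent.Aub.Jx → ℤ, γ' T = x + Pool.Agent.Aub.lat L k := by
      apply proj_eq
      rw [hγs T ⟨hT0, le_rfl⟩, h1]
    have hact : Pool.Agent.Aub.action F γ' v T = action L f γ v T := by
      unfold Pool.Agent.Aub.action action
      refine setLIntegral_congr_fun measurableSet_Icc ?_
      intro s hs'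
      simp only
      rw [← hγs s hs', hfp]
    rw [← hact]
    exact iInf_le_of_le γ' (iInf_le_of_le v (iInf_le_of_le hcur (iInf_le_of_le hγ0
      (iInf_le_of_le hend le_rfl))))

end

end Pool.Agent.Results.MP_3afe9c_an.ChainRecNotAubry
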